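import Pool.Agent.helper13.RF.Spec1

/-!
# Row rf:NRM (MP_16912e_nt): the norm group
-/

set_option autoImplicit false

open NumberField
open scoped nonZeroDivisors

namespace Pool.Agent.RF

theorem NRM (hNCX : NCX_stmt) (hNIX : NIX_stmt) (hPIX : PIX_stmt) : NRM_stmt := by
  intro K L _ _ _ _ _ hquad hreal hgal hdeg hunr
  -- a generator of the Galois group
  have hcard : Nat.card (L ≃ₐ[K] L) = 5 := by
    have := IsGalois.card_aut_eq_finrank K L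
    rw [hdeg] at this
    exact this
  have hprime : Fact (Nat.Prime 5) := ⟨by norm_num⟩
  have hcyc : IsCyclic (L ≃ₐ[K] L) := isCyclic_of_prime_card hcard
  obtain ⟨σ, hσ⟩ := hcyc.exists_generator
  have hE : Ext5 K L σ := ⟨hquad, hreal, hgal, hdeg, hσ⟩
  obtain ⟨n, hn⟩ := hNCX K L
  have hidx := hNIX K L σ hE hunr n hn
  have hfr : Module.finrank (𝓞 K) (𝓞 L) = 5 := by
    rw [← IsFractionRing.finrank_eq (𝓞 K) K (𝓞 L) L]
    exact hdeg
  have h5 : ∀ d : ClassGroup (𝓞 K), d ^ 5 ∈ n.range := by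
    intro d
    obtain ⟨I, rfl⟩ := ClassGroup.mk0_surjective d
    have hI : (I : Ideal (𝓞 K)) ≠ ⊥ := nonZeroDivisors.coe_ne_zero I
    have hJ : (I : Ideal (𝓞 K)).map (algebraMap (𝓞 K) (𝓞 L)) ≠ ⊥ := by
      intro h
      exact hI ((Ideal.map_eq_bot_iff_of_injective (FaithfulSMul.algebraMap_injective (𝓞 K) (𝓞 L))).mp h)
    refine ⟨ClassGroup.mk0 ⟨_, mem_nonZeroDivisors_of_ne_zero hJ⟩, ?_⟩
    rw [hn ⟨_, mem_nonZeroDivisors_of_ne_zero hJ⟩ (I ^ 5) (by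
      rw [Ideal.relNorm_algebraMap, hfr]
      rfl), map_pow]
  obtain ⟨H, hRH, hH⟩ := hPIX (ClassGroup (𝓞 K)) n.range (by omega) h5
  refine ⟨H, hH, ?_⟩
  intro P v hP hP0 hPv hf
  apply hRH
  have hPmax : P.IsMaximal := hP.isMaximal hP0
  have hover : P.LiesOver (v : Ideal (𝓞 K)) := ⟨hPv.symm⟩
  have hvp : (v : Ideal (𝓞 K)).IsPrime := by
    rw [← hPv]
    infer_instance
  have hvmax : (v : Ideal (𝓞 K)).IsMaximal := hvp.isMaximal (nonZeroDivisors.coe_ne_zero v)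
  refine ⟨ClassGroup.mk0 ⟨P, mem_nonZeroDivisors_of_ne_zero hP0⟩, ?_⟩
  refine hn ⟨P, mem_nonZeroDivisors_of_ne_zero hP0⟩ v ?_
  rw [Ideal.relNorm_eq_pow_of_isMaximal P (v : Ideal (𝓞 K)), hf, pow_one]

end Pool.Agent.RF
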